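import Mathlib
import Pool.Agent.Q104.Spec

/-!
# 3-extremal split graphs with arbitrarily many distinct degrees
-/

set_option autoImplicit false

namespace Pool.Agent.Results.MP_6460d1_co.ManyDegrees

open Matrix Finset

section defs

variable {V : Type} [Fintype V] [DecidableEq V] (G : SimpleGraph V) [DecidableRel G.Adj]

/-- a `3`-extremal split graph: a connected split graph of diameter `3` with exactly four distinct
adjacency eigenvalues -/
structure IsExtremalSplit : Prop where
  connected : G.Connected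
  split : ∃ C : Set V, (∀ x ∈ C, ∀ y ∈ C, x ≠ y → G.Adj x y) ∧ ∀ x ∉ C, ∀ y ∉ C, ¬ G.Adj x y
  dist_le : ∀ x y, G.dist x y ≤ 3
  dist_eq : ∃ x y, G.dist x y = 3
  eig : (spectrum ℝ (G.adjMatrix ℝ)).ncard = 4

/-- the number of distinct vertex degrees -/
def t : ℕ := (univ.image fun x => G.degree x).card

end defs

section general

variable {v : ℕ} {T : Type} (nb : T → Finset (Fin v))

/-- the split graph with clique `Fin v` in which the stable vertex `τ` is adjacent to `nb τ` -/
def gr : SimpleGraph (Fin v ⊕ T) where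
  Adj x y := match x, y with
    | Sum.inl i, Sum.inl j => i ≠ j
    | Sum.inl i, Sum.inr τ => i ∈ nb τ
    | Sum.inr τ, Sum.inl i => i ∈ nb τ
    | Sum.inr _, Sum.inr _ => False
  symm := ⟨by
    intro x y
    rcases x with x | x <;> rcases y with y | y <;> simp [eq_comm]⟩
  loopless := ⟨by
    intro x
    rcases x with x | x <;> simp⟩

instance : DecidableRel (gr nb).Adj := by
  intro x y
  rcases x with x | x <;> rcases y with y | y <;> unfold gr <;> simp only <;> infer_instance

@[simp] lemma adj_ll (i j : Fin v) : (gr nb).Adj (Sum.inl i) (Sum.inl j) ↔ i ≠ j := Iff.rfl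
@[simp] lemma adj_lr (i : Fin v) (τ : T) : (gr nb).Adj (Sum.inl i) (Sum.inr τ) ↔ i ∈ nb τ := Iff.rfl
@[simp] lemma adj_rl (i : Fin v) (τ : T) : (gr nb).Adj (Sum.inr τ) (Sum.inl i) ↔ i ∈ nb τ := Iff.rfl
@[simp] lemma adj_rr (τ τ' : T) : ¬ (gr nb).Adj (Sum.inr τ) (Sum.inr τ') := fun h => h

variable [Fintype T] [DecidableEq T]

lemma mulVec_inl (z : Fin v ⊕ T → ℝ) (i : Fin v) : ((gr nb).adjMatrix ℝ *ᵥ z) (Sum.inl i)
    = ∑ j, z (Sum.inl j) - z (Sum.inl i) + ∑ τ, if i ∈ nb τ then z (Sum.inr τ) else 0 := by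
  simp only [Matrix.mulVec, dotProduct, SimpleGraph.adjMatrix_apply, Fintype.sum_sum_type, adj_ll,
    adj_lr, ite_mul, one_mul, zero_mul]
  congr 1
  rw [eq_sub_iff_add_eq, ← Finset.sum_erase_add _ _ (mem_univ i)]
  rw [← Finset.sum_erase_add (a := i) univ (fun j => z (Sum.inl j)) (mem_univ i)]
  simp only [ne_eq, not_true_eq_false, if_false, add_zero]
  congr 1
  refine Finset.sum_congr rfl fun j hj => ?_
  rw [if_pos (Ne.symm (Finset.ne_of_mem_erase hj))]

lemma mulVec_inr (z : Fin v ⊕ T → ℝ) (τ : T) : ((gr nb).adjMatrix ℝ *ᵥ z) (Sum.inr τ)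
    = ∑ i, if i ∈ nb τ then z (Sum.inl i) else 0 := by
  simp [Matrix.mulVec, dotProduct, SimpleGraph.adjMatrix_apply, Fintype.sum_sum_type]

lemma nn (a b : ℝ) (hN : ∀ i j, ∑ τ, (if i ∈ nb τ ∧ j ∈ nb τ then (1 : ℝ) else 0)
    = (if i = j then a else 0) + b) (x : Fin v → ℝ) (i : Fin v) :
    ∑ τ, (if i ∈ nb τ then ∑ j, (if j ∈ nb τ then x j else 0) else 0) = a * x i + b * ∑ j, x j := by
  have h1 : ∀ τ, (if i ∈ nb τ then ∑ j, (if j ∈ nb τ then x j else 0) else 0)
      = ∑ j, (if i ∈ nb τ ∧ j ∈ nb τ then (1 : ℝ) else 0) * x j := by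
    intro τ
    by_cases h : i ∈ nb τ
    · simp [h]
    · simp [h]
  simp only [h1]
  rw [Finset.sum_comm]
  have h2 : ∀ j, ∑ τ, (if i ∈ nb τ ∧ j ∈ nb τ then (1 : ℝ) else 0) * x j
      = ((if i = j then a else 0) + b) * x j := by
    intro j
    rw [← Finset.sum_mul, hN]
  rw [Finset.sum_congr rfl fun j _ => h2 j]
  simp only [add_mul, Finset.sum_add_distrib, ite_mul, zero_mul,
    Finset.sum_ite_eq, Finset.mem_univ, if_true, Finset.mul_sum]

/-- eigenvectors for nonzero eigenvalues -/
lemma mem_spec (a b : ℝ) (hN : ∀ i j, ∑ τ, (if i ∈ nb τ ∧ j ∈ nb τ then (1 : ℝ) else 0)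
    = (if i = j then a else 0) + b) (x : Fin v → ℝ) (i0 : Fin v) (hx : x i0 ≠ 0) (μ : ℝ)
    (hμ : μ ≠ 0)
    (h : ∀ i, μ * (∑ j, x j - x i) + (a * x i + b * ∑ j, x j) = μ * μ * x i) :
    μ ∈ spectrum ℝ ((gr nb).adjMatrix ℝ) := by
  have hA : ((gr nb).adjMatrix ℝ).IsHermitian := (gr nb).isSymm_adjMatrix
  rw [hA.spectrum_real_eq_range_eigenvalues]
  refine Q104.Spec.exists_eigenvalue hA
    (x := Sum.elim x fun τ => (∑ j, (if j ∈ nb τ then x j else 0)) / μ) ?_ ?_
  · intro h0
    exact hx (by simpa using congrFun h0 (Sum.inl i0))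
  · ext y
    rcases y with i | τ
    · rw [mulVec_inl]
      simp only [Sum.elim_inl, Sum.elim_inr, Pi.smul_apply, smul_eq_mul]
      have h2 : ∑ τ, (if i ∈ nb τ then (∑ j, (if j ∈ nb τ then x j else 0)) / μ else 0)
          = (a * x i + b * ∑ j, x j) / μ := by
        rw [← nn nb a b hN x i, Finset.sum_div]
        refine Finset.sum_congr rfl fun τ _ => ?_
        split_ifs <;> simp
      rw [h2]
      have h3 := h i
      field_simp
      linear_combination h3
    · rw [mulVec_inr]
      simp only [Sum.elim_inl, Sum.elim_inr, Pi.smul_apply, smul_eq_mul]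
      field_simp

lemma zero_mem_spec (y : T → ℝ) (τ0 : T) (hy : y τ0 ≠ 0)
    (h : ∀ i, ∑ τ, (if i ∈ nb τ then y τ else 0) = 0) :
    (0 : ℝ) ∈ spectrum ℝ ((gr nb).adjMatrix ℝ) := by
  have hA : ((gr nb).adjMatrix ℝ).IsHermitian := (gr nb).isSymm_adjMatrix
  rw [hA.spectrum_real_eq_range_eigenvalues]
  refine Q104.Spec.exists_eigenvalue hA (x := Sum.elim (fun _ => 0) y) ?_ ?_
  · intro h0
    exact hy (by simpa using congrFun h0 (Sum.inr τ0))
  · ext z
    rcases z with i | τ
    · rw [mulVec_inl]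
      simp [h i]
    · rw [mulVec_inr]
      simp

lemma spec_subset (b : ℝ) (hN : ∀ i j, ∑ τ, (if i ∈ nb τ ∧ j ∈ nb τ then (1 : ℝ) else 0)
    = (if i = j then b * b - b else 0) + b) (μ : ℝ)
    (hμ : μ ∈ spectrum ℝ ((gr nb).adjMatrix ℝ)) : μ = b - 1 + v ∨ μ = b - 1 ∨ μ = 0 ∨ μ = -b := by
  have hA : ((gr nb).adjMatrix ℝ).IsHermitian := (gr nb).isSymm_adjMatrix
  rw [hA.spectrum_real_eq_range_eigenvalues] at hμ
  obtain ⟨k, hk⟩ := hμ
  have hv := Q104.Spec.mulVec_ev hA k
  rw [hk] at hv
  have hne : Q104.Spec.ev hA k ≠ 0 := by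
    intro h
    have h1 := Q104.Spec.ev_dot hA k k
    rw [if_pos rfl, h] at h1
    simp at h1
  set z := Q104.Spec.ev hA k with hz
  by_cases h0 : μ = 0
  · exact Or.inr (Or.inr (Or.inl h0))
  have hl : ∀ i, ∑ j, z (Sum.inl j) - z (Sum.inl i)
      + ∑ τ, (if i ∈ nb τ then z (Sum.inr τ) else 0) = μ * z (Sum.inl i) := by
    intro i
    rw [← mulVec_inl, hv]; rfl
  have hr : ∀ τ, ∑ i, (if i ∈ nb τ then z (Sum.inl i) else 0) = μ * z (Sum.inr τ) := by
    intro τ
    rw [← mulVec_inr, hv]; rfl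
  have hx : ∃ i, z (Sum.inl i) ≠ 0 := by
    by_contra hcon
    push Not at hcon
    apply hne
    ext y
    rcases y with i | τ
    · exact hcon i
    · have := hr τ
      simp only [hcon, ite_self, Finset.sum_const_zero] at this
      exact (mul_eq_zero.mp this.symm).resolve_left h0
  have hmain : ∀ i, μ * (∑ j, z (Sum.inl j) - z (Sum.inl i)) +
      ((b * b - b) * z (Sum.inl i) + b * ∑ j, z (Sum.inl j)) = μ * μ * z (Sum.inl i) := by
    intro i
    rw [← nn nb (b * b - b) b hN (fun i => z (Sum.inl i)) i]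
    simp only [hr]
    have h1 : ∑ τ, (if i ∈ nb τ then μ * z (Sum.inr τ) else 0)
        = μ * ∑ τ, (if i ∈ nb τ then z (Sum.inr τ) else 0) := by
      rw [Finset.mul_sum]
      refine Finset.sum_congr rfl fun τ _ => ?_
      split_ifs <;> simp
    rw [h1]
    linear_combination μ * hl i
  set s := ∑ j, z (Sum.inl j) with hs
  have h2 : ∀ i, (μ + b) * (s - (μ - b + 1) * z (Sum.inl i)) = 0 := by
    intro i
    linear_combination hmain i
  by_cases hb : μ + b = 0
  · exact Or.inr (Or.inr (Or.inr (by linarith)))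
  have h3 : ∀ i, s = (μ - b + 1) * z (Sum.inl i) := by
    intro i
    have := (mul_eq_zero.mp (h2 i)).resolve_left hb
    linarith
  have h4 : (v : ℝ) * s = (μ - b + 1) * s := by
    have : ∑ _i : Fin v, s = ∑ i, (μ - b + 1) * z (Sum.inl i) :=
      Finset.sum_congr rfl fun i _ => h3 i
    rw [← Finset.mul_sum, ← hs] at this
    simpa using this
  by_cases hs0 : s = 0
  · obtain ⟨i, hi⟩ := hx
    have := h3 i
    rw [hs0] at this
    have := (mul_eq_zero.mp this.symm).resolve_right hi
    exact Or.inr (Or.inl (by linarith))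
  · have := mul_right_cancel₀ hs0 h4
    exact Or.inl (by linarith)

lemma conn (h : ∀ τ, (nb τ).Nonempty) (i0 : Fin v) : (gr nb).Connected := by
  have h1 : ∀ i, (gr nb).Reachable (Sum.inl i0) (Sum.inl i) := by
    intro i
    by_cases hi : i0 = i
    · rw [hi]
    · exact SimpleGraph.Adj.reachable (by simpa using hi)
  have h2 : ∀ x, (gr nb).Reachable (Sum.inl i0) x := by
    intro x
    rcases x with i | τ
    · exact h1 i
    · obtain ⟨i, hi⟩ := h τ
      exact (h1 i).trans (SimpleGraph.Adj.reachable (by simpa using hi))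
  exact { preconnected := fun x y => (h2 x).symm.trans (h2 y), nonempty := ⟨Sum.inl i0⟩ }

lemma dist_le (h : ∀ τ, (nb τ).Nonempty) (i0 : Fin v) (x y : Fin v ⊕ T) :
    (gr nb).dist x y ≤ 3 := by
  have hc := conn nb h i0
  have h1 : ∀ x, ∃ i, (gr nb).dist x (Sum.inl i) ≤ 1 := by
    intro x
    rcases x with i | τ
    · exact ⟨i, by simp⟩
    · obtain ⟨i, hi⟩ := h τ
      have : (gr nb).Adj (Sum.inr τ) (Sum.inl i) := by simpa using hi
      exact ⟨i, (SimpleGraph.dist_eq_one_iff_adj.mpr this).le⟩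
  have h2 : ∀ i j : Fin v, (gr nb).dist (Sum.inl i) (Sum.inl j) ≤ 1 := by
    intro i j
    by_cases hij : i = j
    · rw [hij]; simp
    · have : (gr nb).Adj (Sum.inl i) (Sum.inl j) := by simpa using hij
      exact (SimpleGraph.dist_eq_one_iff_adj.mpr this).le
  obtain ⟨i, hi⟩ := h1 x
  obtain ⟨j, hj⟩ := h1 y
  have h3 := hc.dist_triangle (u := x) (v := Sum.inl i) (w := y)
  have h4 := hc.dist_triangle (u := Sum.inl i) (v := Sum.inl j) (w := y)
  rw [SimpleGraph.dist_comm (u := y)] at hj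
  have := h2 i j
  omega

lemma dist_eq (h : ∀ τ, (nb τ).Nonempty) (i0 : Fin v) (τ τ' : T) (hd : Disjoint (nb τ) (nb τ')) :
    (gr nb).dist (Sum.inr τ) (Sum.inr τ') = 3 := by
  have hc := conn nb h i0
  refine le_antisymm (dist_le nb h i0 _ _) ?_
  by_contra hlt
  push Not at hlt
  obtain ⟨p, hp⟩ := hc.exists_walk_length_eq_dist (Sum.inr τ) (Sum.inr τ')
  rw [← hp] at hlt
  have hne : τ ≠ τ' := by
    rintro rfl
    obtain ⟨i, hi⟩ := h τ
    exact (Finset.disjoint_left.mp hd hi) hi
  cases p with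
  | nil => exact hne rfl
  | @cons _ b _ h1 q =>
    cases q with
    | nil => exact h1
    | @cons _ c _ h2 r =>
      cases r with
      | nil =>
        rcases b with i | b
        · exact (Finset.disjoint_left.mp hd (by simpa using h1)) (by simpa using h2)
        · exact h1
      | cons h3 r' =>
        simp only [SimpleGraph.Walk.length_cons] at hlt
        omega

lemma degree_inr (τ : T) : (gr nb).degree (Sum.inr τ) = (nb τ).card := by
  rw [← SimpleGraph.card_neighborFinset_eq_degree]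
  have h : (gr nb).neighborFinset (Sum.inr τ) = (nb τ).map ⟨Sum.inl, Sum.inl_injective⟩ := by
    ext x
    rcases x with i | x <;> simp
  rw [h, Finset.card_map]

end general

/-! ### the family -/

/-- the number of extra pendant vertices at each clique vertex -/
def ex (v : ℕ) : ℕ := 2 ^ (v - 2) * (2 ^ (v - 2) - 2)

/-- the stable vertices -/
abbrev Tv (v : ℕ) : Type := {s : Finset (Fin v) // s.Nonempty} ⊕ (Fin v × Fin (ex v))

/-- the neighbourhoods -/
def nbv (v : ℕ) : Tv v → Finset (Fin v)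
  | Sum.inl s => s.val
  | Sum.inr (i, _) => {i}

lemma nbv_nonempty (v : ℕ) (τ : Tv v) : (nbv v τ).Nonempty := by
  rcases τ with s | ⟨i, l⟩
  · exact s.2
  · exact ⟨i, by simp [nbv]⟩

lemma count (v : ℕ) (i j : Fin v) :
    ∑ s : {s : Finset (Fin v) // s.Nonempty}, (if i ∈ s.val ∧ j ∈ s.val then (1 : ℝ) else 0)
      = 2 ^ (v - ({i, j} : Finset (Fin v)).card) := by
  rw [← Finset.sum_subtype (univ.filter fun s : Finset (Fin v) => s.Nonempty) (by simp)
    (fun s => if i ∈ s ∧ j ∈ s then (1 : ℝ) else 0), Finset.sum_filter]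
  have h1 : ∀ s : Finset (Fin v), (if s.Nonempty then (if i ∈ s ∧ j ∈ s then (1 : ℝ) else 0) else 0)
      = if s ∈ Finset.Icc ({i, j} : Finset (Fin v)) univ then 1 else 0 := by
    intro s
    have hiff : s ∈ Finset.Icc ({i, j} : Finset (Fin v)) univ ↔ i ∈ s ∧ j ∈ s := by
      rw [Finset.mem_Icc]
      constructor
      · intro h3
        exact ⟨h3.1 (by simp), h3.1 (by simp)⟩
      · intro h
        refine ⟨?_, Finset.subset_univ _⟩
        intro x hx
        rw [Finset.mem_insert, Finset.mem_singleton] at hx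
        rcases hx with rfl | rfl
        · exact h.1
        · exact h.2
    by_cases h : i ∈ s ∧ j ∈ s
    · have hs : s.Nonempty := ⟨i, h.1⟩
      rw [if_pos hs, if_pos h, if_pos (hiff.mpr h)]
    · rw [if_neg h, if_neg (fun h3 => h (hiff.mp h3))]
      simp
  simp only [h1]
  rw [Finset.sum_ite_mem, Finset.univ_inter, Finset.sum_const, Finset.card_Icc_finset
    (Finset.subset_univ _), Finset.card_univ, Fintype.card_fin]
  simp

lemma hN (v : ℕ) (hv : 3 ≤ v) (i j : Fin v) :
    ∑ τ, (if i ∈ nbv v τ ∧ j ∈ nbv v τ then (1 : ℝ) else 0)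
      = (if i = j then (2 : ℝ) ^ (v - 2) * 2 ^ (v - 2) - 2 ^ (v - 2) else 0) + 2 ^ (v - 2) := by
  rw [Fintype.sum_sum_type, Fintype.sum_prod_type]
  have h1 : ∑ s : {s : Finset (Fin v) // s.Nonempty}, (if i ∈ nbv v (Sum.inl s) ∧
      j ∈ nbv v (Sum.inl s) then (1 : ℝ) else 0) = 2 ^ (v - ({i, j} : Finset (Fin v)).card) :=
    count v i j
  rw [h1]
  have h2 : ∑ k : Fin v, ∑ l : Fin (ex v), (if i ∈ nbv v (Sum.inr (k, l)) ∧
      j ∈ nbv v (Sum.inr (k, l)) then (1 : ℝ) else 0) = if i = j then (ex v : ℝ) else 0 := by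
    have h3 : ∀ (k : Fin v) (l : Fin (ex v)), (if i ∈ nbv v (Sum.inr (k, l)) ∧
        j ∈ nbv v (Sum.inr (k, l)) then (1 : ℝ) else 0) = if i = k ∧ j = k then 1 else 0 := by
      intro k l
      have h4 : nbv v (Sum.inr (k, l)) = {k} := rfl
      simp only [h4, Finset.mem_singleton]
    simp only [h3, Finset.sum_const, Finset.card_univ, Fintype.card_fin, nsmul_eq_mul]
    rw [← Finset.mul_sum]
    by_cases hij : i = j
    · subst hij
      simp
    · rw [if_neg hij]
      have : ∀ k, ¬ (i = k ∧ j = k) := fun k h => hij (h.1.trans h.2.symm)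
      simp [this]
  rw [h2]
  obtain ⟨w, rfl⟩ : ∃ w, v = w + 3 := ⟨v - 3, by omega⟩
  by_cases hij : i = j
  · subst hij
    rw [if_pos rfl, if_pos rfl]
    simp only [Finset.pair_eq_singleton, Finset.card_singleton]
    have e1 : w + 3 - 1 = w + 2 := by omega
    have e2 : w + 3 - 2 = w + 1 := by omega
    rw [e1, e2, ex, e2]
    have e3 : 2 ≤ 2 ^ (w + 1) := by
      rw [pow_succ]; have : 1 ≤ 2 ^ w := Nat.one_le_two_pow
      omega
    push_cast [e3]
    ring
  · rw [if_neg hij, if_neg hij, Finset.card_pair hij]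
    ring

theorem extremal (v : ℕ) (hv : 3 ≤ v) : IsExtremalSplit (gr (nbv v)) := by
  obtain ⟨i0, i1, h01⟩ : ∃ i0 i1 : Fin v, i0 ≠ i1 :=
    ⟨⟨0, by omega⟩, ⟨1, by omega⟩, by simp⟩
  set b : ℝ := 2 ^ (v - 2) with hb
  have hN' := hN v hv
  rw [← hb] at hN'
  have hb2 : 2 ≤ b := by
    rw [hb]
    calc (2 : ℝ) = 2 ^ 1 := by norm_num
      _ ≤ 2 ^ (v - 2) := pow_le_pow_right₀ (by norm_num) (by omega)
  have hv3 : (3 : ℝ) ≤ v := by exact_mod_cast hv
  refine ⟨conn _ (nbv_nonempty v) i0, ⟨{x | ∃ i, x = Sum.inl i}, ?_, ?_⟩,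
    dist_le _ (nbv_nonempty v) i0, ⟨Sum.inr (Sum.inl ⟨{i0}, by simp⟩),
      Sum.inr (Sum.inl ⟨{i1}, by simp⟩), ?_⟩, ?_⟩
  · rintro _ ⟨i, rfl⟩ _ ⟨j, rfl⟩ h
    simpa using h
  · intro x hx y hy
    rcases x with i | x
    · exact absurd ⟨i, rfl⟩ hx
    · rcases y with j | y
      · exact absurd ⟨j, rfl⟩ hy
      · exact adj_rr _ _ _
  · exact dist_eq _ (nbv_nonempty v) i0 _ _ (by simpa [nbv] using h01)
  · have hspec : spectrum ℝ ((gr (nbv v)).adjMatrix ℝ) = {b - 1 + v, b - 1, 0, -b} := by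
      ext μ
      simp only [Set.mem_insert_iff, Set.mem_singleton_iff]
      constructor
      · exact spec_subset (nbv v) b hN' μ
      · rintro (rfl | rfl | rfl | rfl)
        · refine mem_spec (nbv v) _ _ hN' (fun _ => 1) i0 one_ne_zero _ (by linarith) ?_
          intro i
          simp only [Finset.sum_const, Finset.card_univ, Fintype.card_fin, nsmul_eq_mul, mul_one]
          ring
        · refine mem_spec (nbv v) _ _ hN' (fun i => (if i = i0 then 1 else 0) -
            (if i = i1 then 1 else 0)) i0 (by simp [h01]) _ (by linarith) ?_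
          intro i
          simp only [Finset.sum_sub_distrib, Finset.sum_ite_eq', Finset.mem_univ, if_true]
          ring
        · have d1 : ({i0, i1} : Finset (Fin v)) ≠ {i0} := by
            intro h
            have : i1 ∈ ({i0} : Finset (Fin v)) := by rw [← h]; simp
            exact h01 (Finset.mem_singleton.mp this).symm
          have d2 : ({i0} : Finset (Fin v)) ≠ {i1} := fun h => h01 (Finset.singleton_injective h)
          have hpair : ({i0, i1} : Finset (Fin v)).Nonempty := ⟨i0, by simp⟩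
          have hs0 : ({i0} : Finset (Fin v)).Nonempty := ⟨i0, by simp⟩
          have hs1 : ({i1} : Finset (Fin v)).Nonempty := ⟨i1, by simp⟩
          refine zero_mem_spec (nbv v) (fun τ => (if τ = Sum.inl ⟨_, hpair⟩ then 1 else 0)
            - (if τ = Sum.inl ⟨_, hs0⟩ then 1 else 0) - (if τ = Sum.inl ⟨_, hs1⟩ then 1 else 0))
            (Sum.inl ⟨_, hs0⟩) ?_ ?_
          · simp [d1.symm, d2]
          · intro i
            have e1 : ∀ τ : Tv v, (if i ∈ nbv v τ then ((if τ = Sum.inl ⟨_, hpair⟩ then (1 : ℝ)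
                else 0) - (if τ = Sum.inl ⟨_, hs0⟩ then 1 else 0)
                - (if τ = Sum.inl ⟨_, hs1⟩ then 1 else 0)) else 0)
                = (if τ = Sum.inl ⟨_, hpair⟩ then (if i ∈ nbv v τ then 1 else 0) else 0)
                - (if τ = Sum.inl ⟨_, hs0⟩ then (if i ∈ nbv v τ then 1 else 0) else 0)
                - (if τ = Sum.inl ⟨_, hs1⟩ then (if i ∈ nbv v τ then 1 else 0) else 0) := by
              intro τ
              by_cases h : i ∈ nbv v τ
              · simp only [if_pos h]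
              · simp [h]
            simp only [e1, Finset.sum_sub_distrib, Finset.sum_ite_eq', Finset.mem_univ, if_true]
            have m1 : i ∈ nbv v (Sum.inl ⟨_, hpair⟩) ↔ i = i0 ∨ i = i1 := by
              simp [nbv]
            have m2 : i ∈ nbv v (Sum.inl ⟨_, hs0⟩) ↔ i = i0 := by
              simp [nbv]
            have m3 : i ∈ nbv v (Sum.inl ⟨_, hs1⟩) ↔ i = i1 := by
              simp [nbv]
            by_cases c0 : i = i0
            · have c1 : i ≠ i1 := fun h => h01 (c0.symm.trans h)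
              rw [if_pos (m1.mpr (Or.inl c0)), if_pos (m2.mpr c0), if_neg (fun h => c1 (m3.mp h))]
              ring
            · by_cases c1 : i = i1
              · rw [if_pos (m1.mpr (Or.inr c1)), if_neg (fun h => c0 (m2.mp h)),
                  if_pos (m3.mpr c1)]
                ring
              · rw [if_neg (fun h => (m1.mp h).elim c0 c1), if_neg (fun h => c0 (m2.mp h)),
                  if_neg (fun h => c1 (m3.mp h))]
                ring
        · refine mem_spec (nbv v) _ _ hN' (fun i => (if i = i0 then 1 else 0) -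
            (if i = i1 then 1 else 0)) i0 (by simp [h01]) _ (by linarith) ?_
          intro i
          simp only [Finset.sum_sub_distrib, Finset.sum_ite_eq', Finset.mem_univ, if_true]
          ring
    rw [hspec, Set.ncard_insert_of_notMem, Set.ncard_insert_of_notMem, Set.ncard_pair]
    · intro h; linarith
    · simp only [Set.mem_insert_iff, Set.mem_singleton_iff, not_or]
      exact ⟨by intro h; linarith, by intro h; linarith⟩
    · simp only [Set.mem_insert_iff, Set.mem_singleton_iff, not_or]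
      exact ⟨by intro h; linarith, by intro h; linarith, by intro h; linarith⟩

/-- **`3`-extremal split graphs can have arbitrarily many distinct degrees.** -/
theorem result (c : ℕ) : ∃ (V : Type) (_ : Fintype V) (_ : DecidableEq V) (G : SimpleGraph V)
    (_ : DecidableRel G.Adj), IsExtremalSplit G ∧ c < t G := by
  refine ⟨Fin (c + 3) ⊕ Tv (c + 3), inferInstance, inferInstance, gr (nbv (c + 3)), inferInstance,
    extremal (c + 3) (by omega), ?_⟩
  have h1 : Finset.Icc 1 (c + 3) ⊆ univ.image fun x => (gr (nbv (c + 3))).degree x := by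
    intro k hk
    rw [Finset.mem_Icc] at hk
    obtain ⟨s, -, hs⟩ := Finset.exists_subset_card_eq (s := (univ : Finset (Fin (c + 3))))
      (n := k) (by simpa using hk.2)
    have hne : s.Nonempty := by rw [← Finset.card_pos]; omega
    rw [Finset.mem_image]
    refine ⟨Sum.inr (Sum.inl ⟨s, hne⟩), mem_univ _, ?_⟩
    rw [degree_inr]
    exact hs
  have h2 := Finset.card_le_card h1
  rw [Nat.card_Icc] at h2
  simp only [t]
  omega

end Pool.Agent.Results.MP_6460d1_co.ManyDegrees
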